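import Pool.Agent.H.MP_f896b9_an.Final

set_option autoImplicit false

namespace Pool.Agent.Results.MP_f896b9_an.Values

open Pool.Agent.H.MP_f896b9_an

theorem result (α : Ordinal.{0}) (h2 : 2 ≤ α) (hc : α < Ordinal.omega 1) :
    classDist HasType α = 2 ∧ classDist HasCotype α = 2 ∧
      (α < Ordinal.omega0 → classDist SuperRefl α = 2) ∧
      (Ordinal.omega0 ≤ α → classDist SuperRefl α = 1) :=
  main α (le_trans one_le_two h2) hc

end Pool.Agent.Results.MP_f896b9_an.Values
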